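import Pool.Agent.H88.MCR.Stmts

namespace Pool.MCR

theorem clb_arm82 {L M : Type} (f : L → M) : ∀ (l : List L) (s : Bool),
    arcs s (l.map f) = (arcs s l).map (fun A => (A.1, f A.2.1, f A.2.2))
  | [], s => by simp [arcs]
  | [a], s => by simp [arcs]
  | a :: b :: t, s => by
      have h := clb_arm82 f (b :: t) (!s)
      simp only [List.map_cons] at h
      simp only [List.map_cons, arcs, h]

theorem clb_thm (h1 : ARV_S) : CLB_S := by
  intro L _ n D w r hw
  have hne : ∀ x, x < n → ¬ (x = n) := fun x hx => by omega
  have hb2 : ∀ m : ℕ, Nat.bodd (m + 2) = Nat.bodd m := by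
    intro m
    simp
  have hP1 : ∀ x < n, (clone D n w r).P n x =
      lp (D.pos w) 1 :: (newE D w r x ++ [lp (D.pos x) 0]) := by
    intro x hx
    simp [Diag.P, clone, hne x hx]
  have hP2 : ∀ x < n, (clone D n w r).P x n =
      lp (D.pos x) 0 :: ((newE D w r x).reverse ++ [lp (D.pos w) 1]) := by
    intro x hx
    simp [Diag.P, clone, hne x hx]
  have hR : ∀ x < n, ((clone D n w r).P n x).reverse = (clone D n w r).P x n := by
    intro x hx
    rw [hP1 x hx, hP2 x hx]
    simp
  have hR' : ∀ x < n, ((clone D n w r).P x n).reverse = (clone D n w r).P n x := by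
    intro x hx
    rw [← hR x hx, List.reverse_reverse]
  have hl1 : ∀ x < n, Nat.bodd ((clone D n w r).P n x).length
      = Nat.bodd (newE D w r x).length := by
    intro x hx
    rw [hP1 x hx]
    have : (lp (D.pos w) 1 :: (newE D w r x ++ [lp (D.pos x) 0])).length
        = (newE D w r x).length + 2 := by simp
    rw [this, hb2]
  have hl2 : ∀ x < n, Nat.bodd ((clone D n w r).P x n).length
      = Nat.bodd (newE D w r x).length := by
    intro x hx
    rw [← hR x hx, List.length_reverse, hl1 x hx]
  have hS1 : ∀ x < n, (clone D n w r).S n x = (if x = w then true else false) := by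
    intro x hx
    simp [clone]
  have hS2 : ∀ x < n, (clone D n w r).S x n =
      xor (if x = w then true else false) (Nat.bodd (newE D w r x).length) := by
    intro x hx
    simp [clone, hne x hx]
  refine ⟨?_, ?_, ?_, ?_⟩
  · have hn : newE D w r w = [] := by simp [newE]
    have h2 := hP1 w hw
    rw [hn] at h2
    unfold Diag.A
    rw [h2, hS1 w hw]
    simp [arcs]
  · intro x hx y hy
    have hp : (clone D n w r).P x y = (D.P x y).map (fun c => lp c 0) := by
      simp [Diag.P, clone, hne x hx, hne y hy]
    have hs : (clone D n w r).S x y = D.S x y := by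
      simp [clone, hne x hx, hne y hy]
    unfold Diag.A
    rw [hp, hs, clb_arm82]
    rfl
  · intro x hx t a b hab
    unfold Diag.A at hab ⊢
    have h := h1 _ _ _ _ _ _ hab
    rw [hR x hx, hl1 x hx, hS1 x hx, ← hS2 x hx] at h
    exact h
  · intro x hx t a b hab
    unfold Diag.A at hab ⊢
    have h := h1 _ _ _ _ _ _ hab
    rw [hR' x hx, hl2 x hx, hS2 x hx] at h
    rw [hS1 x hx]
    have e : ∀ u v : Bool, xor (xor u v) v = u := by decide
    rw [e] at h
    exact h

end Pool.MCR
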