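import Pool.Agent.H88.MCR.Stmts

namespace Pool.MCR

theorem cns_thm (h1 : INB_S) (h2 : PRJ_S) (h3 : LOC_S) (h4 : KIT_S) (h5 : CLA_S)
    (h6 : CLB_S) : CNS_S := by
  intro L _ n D w r hG hw hr y hy
  have hirr : ∀ (a b : L ×ₗ ℤ), ¬ Inter a b a b := fun a b hI =>
    ((h1 _ a b a b).2.2.2 hI).2.1 rfl
  by_cases hyw : y = w
  · subst hyw
    rw [(h6 L n D y r hw).1]
    intro A hA B hB hC
    simp only [List.mem_singleton] at hA hB
    subst hA
    subst hB
    exact hirr _ _ hC.2
  · have hwy : w ≠ y := fun h => hyw h.symm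
    rw [h5 L n D w y r hG hw hy hyw]
    obtain ⟨-, -, -, hmem, hdis⟩ := (h4 L n D hG).1 w hw y hy hwy
    have h7 := (h3 L).2.2.2.2.2.2
    -- a small arc does not cross the image of an old arc
    have hsm : ∀ B ∈ D.A w y, D.S w y = true →
        ¬ Cross ((false, lp (D.pos w) 1, lp (D.pos w) (- r y)) : Arc (L ×ₗ ℤ))
          (la D w r y B) := by
      rintro ⟨t, a, b⟩ hB hS hC
      obtain ⟨hs, hI⟩ := hC
      have ht : t = false := by
        simpa [la] using hs.symm
      subst ht
      have hm := hmem _ _ _ hB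
      have hb : b ≠ D.pos w := hm.2.2.2.1
      have ha : a ≠ D.pos w := by
        intro h
        have := (hm.2.2.2.2.2 h).1
        rw [hS] at this
        exact Bool.noConfusion this
      exact h7 (D.pos w) a b _ _ _ _ ha.symm hb.symm hI
    have hcomm : ∀ A B : Arc (L ×ₗ ℤ), Cross A B → Cross B A := by
      rintro A B ⟨hs, hI⟩
      exact ⟨hs.symm, ((h1 _ _ _ _ _).2.2.1).1 hI⟩
    intro A hA B hB hC
    rw [List.mem_append] at hA hB
    rcases hA with hA | hA
    · by_cases hS : D.S w y = true
      · rw [if_pos hS, List.mem_singleton] at hA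
        subst hA
        rcases hB with hB | hB
        · rw [if_pos hS, List.mem_singleton] at hB
          subst hB
          exact hirr _ _ hC.2
        · obtain ⟨B', hB', rfl⟩ := List.mem_map.1 hB
          exact hsm B' hB' hS hC
      · rw [if_neg hS] at hA
        exact absurd hA (List.not_mem_nil)
    · obtain ⟨A', hA', rfl⟩ := List.mem_map.1 hA
      rcases hB with hB | hB
      · by_cases hS : D.S w y = true
        · rw [if_pos hS, List.mem_singleton] at hB
          subst hB
          exact hsm A' hA' hS (hcomm _ _ hC)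
        · rw [if_neg hS] at hB
          exact absurd hB (List.not_mem_nil)
      · obtain ⟨B', hB', rfl⟩ := List.mem_map.1 hB
        obtain ⟨t, a, b⟩ := A'
        obtain ⟨t', c, d⟩ := B'
        obtain ⟨hs, hI⟩ := hC
        have hs' : t = t' := hs
        subst hs'
        by_cases hab : a = c ∧ b = d
        · obtain ⟨rfl, rfl⟩ := hab
          exact hirr _ _ hI
        · obtain ⟨e1, e2, e3, e4⟩ := hdis _ _ _ _ _ hA' hB' hab
          have hI' : Inter a b c d := (h2 L a b c d _ _ _ _ e1 e2 e3 e4).1 hI
          exact hG.self w hw y hy hwy _ hA' _ hB' ⟨rfl, hI'⟩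

end Pool.MCR
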